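import Pool.Agent.Helper93.TCU.Stmts
import Pool.Agent.Helper93.TCU.Bas
import Pool.Agent.Helper3.TCS.M1

/-!
# PK: no neighbour which has chosen the colour keeps its choice
-/

set_option autoImplicit false

namespace Pool.TCU

open Pool.TC Pool.TCM Pool.TCS Finset
open scoped Classical

private theorem pk_const {Ω : Type} [Fintype Ω] [Nonempty Ω] (c : ℝ) :
    mean (fun _ : Ω => c) = c := by
  unfold mean
  have h : (Fintype.card Ω : ℝ) ≠ 0 := by exact_mod_cast Fintype.card_ne_zero
  rw [sum_const, card_univ, nsmul_eq_mul]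
  field_simp

private theorem pk_sub {Ω : Type} [Fintype Ω] (F G : Ω → ℝ) :
    mean (fun ω => F ω - G ω) = mean F - mean G := by
  unfold mean
  rw [sum_sub_distrib, sub_div]

private theorem pk_nonneg {Ω : Type} [Fintype Ω] (F : Ω → ℝ) (h : ∀ ω, 0 ≤ F ω) : 0 ≤ mean F := by
  unfold mean
  exact div_nonneg (sum_nonneg fun ω _ => h ω) (Nat.cast_nonneg _)

/-- the union bound -/
private theorem pk_union {ι : Type} (T : Finset ι) (P : ι → Prop)
    {d : Decidable (∀ w ∈ T, ¬ P w)} :
    1 - ∑ w ∈ T, (if P w then (1 : ℝ) else 0) ≤ @ite ℝ (∀ w ∈ T, ¬ P w) d 1 0 := by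
  by_cases h : ∀ w ∈ T, ¬ P w
  · rw [if_pos h, sum_eq_zero fun w hw => if_neg (h w hw), sub_zero]
  · rw [if_neg h]
    push Not at h
    obtain ⟨w, hw, hPw⟩ := h
    have h1 := single_le_sum (f := fun w => if P w then (1 : ℝ) else 0)
      (fun w _ => by split_ifs <;> norm_num) hw
    simp only [if_pos hPw] at h1
    linarith

theorem thm_PK (hRet : St_Ret) : St_PK := by
  intro V κ _ _ S U L D l m K x q Lam o h hg u hu a ha
  obtain ⟨r1, r2, r3, -⟩ := hRet V κ S U L D l m K x q Lam o h hg
  have hN : 0 < m ^ (2 * K + 1) := Nat.pow_pos (by have := h.m192; omega)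
  have hne : Nonempty (Fin (m ^ (2 * K + 1))) := ⟨⟨0, hN⟩⟩
  have hβ := h.bet_pos
  have hβK := h.betK
  have hK := h.Kpos
  have hαK := h.alK
  have hβ1 := h.bet_le'
  obtain ⟨A, hA⟩ : ∃ A : Finset V, A = KP S U o u a := ⟨_, rfl⟩
  obtain ⟨B, hB⟩ : ∃ B : Finset V, B = KR S U o u (S.r u a) := ⟨_, rfl⟩
  have hAm : ∀ w ∈ A, w ∈ U ∧ S.adj u w ∧ o w = a := by
    intro w hw
    rw [hA] at hw
    unfold KP at hw
    exact (mem_filter.1 hw).2
  have hBm : ∀ w ∈ B, w ∈ U ∧ w ≠ u ∧ S.r w (o w) = S.r u a := by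
    intro w hw
    rw [hB] at hw
    unfold KR at hw
    exact (mem_filter.1 hw).2
  have hAc : (A.card : ℝ) ≤ K := by
    rw [hA]
    exact_mod_cast hg.kP u hu a ha
  have hBc : (B.card : ℝ) ≤ K := by
    have : B.card ≤ K := by
      refine le_trans (card_le_card ?_) (hg.kR (S.r u a))
      intro w hw
      exact mem_filter.2 ⟨mem_univ _, (hBm w hw).1, (hBm w hw).2.2⟩
    exact_mod_cast this
  have hA0 : (0 : ℝ) ≤ A.card := Nat.cast_nonneg _
  have hn0 := npair_nonneg S A
  have hn1 := npair_le S A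
  have hSs : Ss S U m K o u a = 1 - bet m K * A.card + bet m K ^ 2 / 2 * npair S A := by
    unfold Ss
    rw [hA]
  have hβA : bet m K * A.card ≤ 1 / 8 := by
    calc bet m K * A.card ≤ bet m K * K := mul_le_mul_of_nonneg_left hAc hβ.le
      _ = K * bet m K := mul_comm _ _
      _ ≤ 1 / 8 := hβK
  have hβB : bet m K * B.card ≤ 1 / 8 := by
    calc bet m K * B.card ≤ bet m K * K := mul_le_mul_of_nonneg_left hBc hβ.le
      _ = K * bet m K := mul_comm _ _
      _ ≤ 1 / 8 := hβK
  -- conflicts in `A`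
  have hconf : ∀ w ∈ A, ∀ w' ∈ A, w ≠ w' → ¬ S.adj w w' → ¬ conf S o w w' := by
    intro w hw w' hw' hne hadj hc
    obtain ⟨-, ⟨h1, -⟩ | h1⟩ := hc
    · exact hadj h1
    · rw [(hAm w hw).2.2, (hAm w' hw').2.2] at h1
      exact hne (S.inj _ _ _ h1)
  have hex : ∀ w w' (ω : Lab V κ → Fin (m ^ (2 * K + 1))), conf S o w w' →
      ¬ (retv S U o m K ω w ∧ retv S U o m K ω w') := by
    rintro w w' ω hc ⟨h1, h2⟩
    exact h1.2.2.2 w' h2.1 hc h2.2.1
  have hsymm : ∀ w w', conf S o w w' → conf S o w' w := by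
    rintro w w' ⟨h1, h2⟩
    refine ⟨h1.symm, ?_⟩
    rcases h2 with ⟨h2, h3⟩ | h2
    · exact Or.inl ⟨S.symm _ _ h2, h3.symm⟩
    · exact Or.inr h2.symm
  refine ⟨?_, ?_, ?_, ?_, ?_⟩
  · -- the lower bound for `A0`
    have g1 : mean (fun ω : Lab V κ → Fin (m ^ (2 * K + 1)) =>
        1 - (∑ w ∈ A, (if retv S U o m K ω w then (1 : ℝ) else 0)) +
        (∑ w ∈ A, ∑ w' ∈ A.erase w,
          (if retv S U o m K ω w ∧ retv S U o m K ω w' then (1 : ℝ) else 0)) / 2 -
        (∑ w ∈ A, ∑ w' ∈ A.erase w, ∑ t ∈ (A.erase w).erase w',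
          (if retv S U o m K ω w ∧ retv S U o m K ω w' ∧ retv S U o m K ω t
            then (1 : ℝ) else 0)) / 6) ≤ A0 S U o m K u a := by
      unfold A0
      refine M1_mean_mono fun ω => ?_
      refine (M1_ie (d := Classical.propDecidable _) A
        fun w => retv S U o m K ω w).trans (le_of_eq ?_)
      by_cases hh : ∀ w ∈ A, ¬ retv S U o m K ω w
      · rw [if_pos hh, if_pos]
        unfold nP
        rw [← hA]
        exact hh
      · rw [if_neg hh, if_neg]
        unfold nP
        rw [← hA]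
        exact hh
    rw [M1_mean_lin] at g1
    have m1 : mean (fun ω : Lab V κ → Fin (m ^ (2 * K + 1)) =>
        ∑ w ∈ A, (if retv S U o m K ω w then (1 : ℝ) else 0)) = bet m K * A.card := by
      rw [M1_mean_sum, sum_congr rfl fun w hw => r1 w (hAm w hw).1, sum_const, nsmul_eq_mul]
      ring
    obtain ⟨E2, hE2⟩ : ∃ E2 : ℝ, E2 = mean (fun ω : Lab V κ → Fin (m ^ (2 * K + 1)) =>
        ∑ w ∈ A, ∑ w' ∈ A.erase w,
          (if retv S U o m K ω w ∧ retv S U o m K ω w' then (1 : ℝ) else 0)) := ⟨_, rfl⟩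
    have hE2' : E2 = ∑ w ∈ A, ∑ w' ∈ A.erase w, mean (fun ω : Lab V κ →
        Fin (m ^ (2 * K + 1)) =>
          (if retv S U o m K ω w ∧ retv S U o m K ω w' then (1 : ℝ) else 0)) := by
      rw [hE2, M1_mean_sum]
      exact sum_congr rfl fun w _ => M1_mean_sum _ _
    have hnn : ∀ w w', 0 ≤ mean (fun ω : Lab V κ → Fin (m ^ (2 * K + 1)) =>
        (if retv S U o m K ω w ∧ retv S U o m K ω w' then (1 : ℝ) else 0)) := fun w w' =>
      pk_nonneg _ fun ω => by split_ifs <;> norm_num
    have m2 : bet m K ^ 2 * (2 * npair S A) ≤ E2 := by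
      have e1 : 2 * npair S A =
          ∑ w ∈ A, ∑ w' ∈ A, (if w ≠ w' ∧ ¬ S.adj w w' then (1 : ℝ) else 0) := by
        unfold npair
        rw [card_filter]
        push_cast
        rw [sum_product, mul_div_cancel₀ _ (two_ne_zero)]
      rw [e1, mul_sum, hE2']
      refine sum_le_sum fun w hw => ?_
      rw [← sum_erase A (a := w) (f := fun w' =>
        if w ≠ w' ∧ ¬ S.adj w w' then (1 : ℝ) else 0) (by simp), mul_sum]
      refine sum_le_sum fun w' hw' => ?_
      obtain ⟨h2, h3⟩ := mem_erase.1 hw'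
      by_cases h4 : w ≠ w' ∧ ¬ S.adj w w'
      · rw [if_pos h4, mul_one]
        exact r2 w (hAm w hw).1 w' (hAm w' h3).1 h4.1 (hconf w hw w' h3 h4.1 h4.2)
      · rw [if_neg h4, mul_zero]
        exact hnn w w'
    have m3 : mean (fun ω : Lab V κ → Fin (m ^ (2 * K + 1)) =>
        ∑ w ∈ A, ∑ w' ∈ A.erase w, ∑ t ∈ (A.erase w).erase w',
          (if retv S U o m K ω w ∧ retv S U o m K ω w' ∧ retv S U o m K ω t
            then (1 : ℝ) else 0)) ≤ 1 / 8 * E2 := by
      rw [M1_mean_sum, hE2', mul_sum]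
      refine sum_le_sum fun w hw => ?_
      rw [M1_mean_sum, mul_sum]
      refine sum_le_sum fun w' hw' => ?_
      obtain ⟨h2, h3⟩ := mem_erase.1 hw'
      rw [M1_mean_sum]
      have h5 : ∀ t ∈ (A.erase w).erase w', mean (fun ω : Lab V κ → Fin (m ^ (2 * K + 1)) =>
          (if retv S U o m K ω w ∧ retv S U o m K ω w' ∧ retv S U o m K ω t
            then (1 : ℝ) else 0)) ≤ 1 / (m : ℝ) * mean (fun ω : Lab V κ →
        Fin (m ^ (2 * K + 1)) =>
          (if retv S U o m K ω w ∧ retv S U o m K ω w' then (1 : ℝ) else 0)) := by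
        intro t ht
        obtain ⟨h6, h7⟩ := mem_erase.1 ht
        obtain ⟨h8, h9⟩ := mem_erase.1 h7
        by_cases hc : conf S o w t ∨ conf S o w' t
        · have hz : mean (fun ω : Lab V κ → Fin (m ^ (2 * K + 1)) =>
              (if retv S U o m K ω w ∧ retv S U o m K ω w' ∧ retv S U o m K ω t
                then (1 : ℝ) else 0)) = 0 := by
            have : (fun ω : Lab V κ → Fin (m ^ (2 * K + 1)) =>
              (if retv S U o m K ω w ∧ retv S U o m K ω w' ∧ retv S U o m K ω t
                then (1 : ℝ) else 0)) = fun _ => 0 := by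
              funext ω
              refine if_neg fun h10 => ?_
              rcases hc with hc | hc
              · exact hex w t ω hc ⟨h10.1, h10.2.2⟩
              · exact hex w' t ω hc ⟨h10.2.1, h10.2.2⟩
            rw [this, pk_const]
          rw [hz]
          exact mul_nonneg h.al0.le (hnn w w')
        · rw [not_or] at hc
          exact r3 w (hAm w hw).1 w' (hAm w' h3).1 t (hAm t h9).1 h8.symm h6.symm hc.1 hc.2
      refine (sum_le_sum h5).trans ?_
      rw [sum_const, nsmul_eq_mul, ← mul_assoc]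
      refine mul_le_mul_of_nonneg_right ?_ (hnn w w')
      have h10 : (((A.erase w).erase w').card : ℝ) ≤ K := by
        refine le_trans ?_ hAc
        exact_mod_cast card_le_card ((erase_subset _ _).trans (erase_subset _ _))
      exact (mul_le_mul_of_nonneg_right h10 h.al0.le).trans hαK
    rw [m1, ← hE2] at g1
    have hE0 : 0 ≤ E2 := le_trans (by positivity) m2
    rw [hSs]
    nlinarith
  · rw [hSs]
    have : 0 ≤ bet m K ^ 2 / 2 * npair S A := by positivity
    linarith
  · rw [hSs]
    have h1 : bet m K ^ 2 / 2 * npair S A ≤ (bet m K * A.card) ^ 2 / 4 := by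
      have := mul_le_mul_of_nonneg_left hn1 (show (0 : ℝ) ≤ bet m K ^ 2 / 2 by positivity)
      calc _ ≤ _ := this
        _ = _ := by ring
    have h2 : 0 ≤ bet m K * A.card := by positivity
    nlinarith
  · have g1 : mean (fun ω : Lab V κ → Fin (m ^ (2 * K + 1)) =>
        (1 - ∑ w ∈ A, (if retv S U o m K ω w then (1 : ℝ) else 0)) -
          (if retv S U o m K ω u then (1 : ℝ) else 0)) ≤ A2 S U o m K u a := by
      unfold A2
      refine M1_mean_mono fun ω => ?_
      by_cases h2 : retv S U o m K ω u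
      · rw [if_pos h2, if_neg fun h3 => h3.1 h2]
        have : @ite ℝ (∀ w ∈ A, ¬ retv S U o m K ω w) (Classical.propDecidable _) 1 0 ≤ 1 := by
          split_ifs <;> norm_num
        have h4 := pk_union (d := Classical.propDecidable _) A fun w => retv S U o m K ω w
        linarith
      · rw [if_neg h2, sub_zero]
        refine (pk_union (d := Classical.propDecidable _) A
          fun w => retv S U o m K ω w).trans (le_of_eq ?_)
        by_cases hh : ∀ w ∈ A, ¬ retv S U o m K ω w
        · rw [if_pos hh, if_pos]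
          refine ⟨h2, ?_⟩
          unfold nP
          rw [← hA]
          exact hh
        · rw [if_neg hh, if_neg]
          rintro ⟨-, h3⟩
          unfold nP at h3
          rw [← hA] at h3
          exact hh h3
    rw [pk_sub, pk_sub, pk_const, r1 u hu, M1_mean_sum,
      sum_congr rfl fun w hw => r1 w (hAm w hw).1, sum_const, nsmul_eq_mul] at g1
    nlinarith
  · have g1 : mean (fun ω : Lab V κ → Fin (m ^ (2 * K + 1)) =>
        (1 - ∑ w ∈ B, (if retv S U o m K ω w then (1 : ℝ) else 0)) -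
          (if retv S U o m K ω u then (1 : ℝ) else 0)) ≤ A3 S U o m K u a := by
      unfold A3
      refine M1_mean_mono fun ω => ?_
      by_cases h2 : retv S U o m K ω u
      · rw [if_pos h2, if_neg fun h3 => h3.1 h2]
        have : @ite ℝ (∀ w ∈ B, ¬ retv S U o m K ω w) (Classical.propDecidable _) 1 0 ≤ 1 := by
          split_ifs <;> norm_num
        have h4 := pk_union (d := Classical.propDecidable _) B fun w => retv S U o m K ω w
        linarith
      · rw [if_neg h2, sub_zero]
        refine (pk_union (d := Classical.propDecidable _) B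
          fun w => retv S U o m K ω w).trans (le_of_eq ?_)
        by_cases hh : ∀ w ∈ B, ¬ retv S U o m K ω w
        · rw [if_pos hh, if_pos]
          refine ⟨h2, ?_⟩
          unfold nR
          rw [← hB]
          exact hh
        · rw [if_neg hh, if_neg]
          rintro ⟨-, h3⟩
          unfold nR at h3
          rw [← hB] at h3
          exact hh h3
    rw [pk_sub, pk_sub, pk_const, r1 u hu, M1_mean_sum,
      sum_congr rfl fun w hw => r1 w (hBm w hw).1, sum_const, nsmul_eq_mul] at g1
    nlinarith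

end Pool.TCU
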