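import Pool.Agent.Helper93.TCU.SStmt3

/-!
# SN3: the numbers of the S-stage, third step (helper49)
-/

set_option autoImplicit false

namespace Pool.TCU

open Pool.TC Pool.TCM Pool.TCS Pool.TCV Finset
open scoped Classical

private lemma sn3_a (b T : ℝ) (hb : 0 < b) (hb1 : b ≤ 1 / 1000) (hT : 0 < T) (n : ℕ)
    (hn : 33 / b * Real.log (1 / T) ≤ n) : 1 ≤ T * (1 + b / 32) ^ n := by
  have hu : 0 < 1 + b / 32 := by positivity
  have h1 : b / 33 ≤ Real.log (1 + b / 32) := by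
    have h2 := Real.one_sub_inv_le_log_of_pos hu
    have h3 : (1 + b / 32)⁻¹ ≤ 1 - b / 33 := by
      rw [inv_le_comm₀ hu (by linarith), ← one_div, div_le_iff₀ (by linarith)]
      nlinarith
    linarith
  have h4 : Real.log (1 / T) ≤ n * (b / 33) := by
    have h5 := mul_le_mul_of_nonneg_right hn (by positivity : (0 : ℝ) ≤ b / 33)
    have e : 33 / b * Real.log (1 / T) * (b / 33) = Real.log (1 / T) := by
      field_simp
    rwa [e] at h5
  have h6 : Real.log (1 / T) ≤ Real.log ((1 + b / 32) ^ n) := by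
    rw [Real.log_pow]
    exact h4.trans (mul_le_mul_of_nonneg_left h1 (Nat.cast_nonneg n))
  have h7 : 1 / T ≤ (1 + b / 32) ^ n :=
    (Real.log_le_log_iff (by positivity) (by positivity)).1 h6
  rw [div_le_iff₀ hT] at h7
  linarith

private lemma sn3_b (b T : ℝ) (hb : 0 < b) (hb1 : b ≤ 1 / 1000) (hT : 0 < T) (hT1 : T ≤ 1) (n : ℕ)
    (hn : (n : ℝ) ≤ 33 / b * Real.log (1 / T) + 1) : T ^ 100 / 3 ≤ (1 - 3 * b) ^ n := by
  have hv : 0 < 1 - 3 * b := by linarith
  have hl0 : 0 ≤ Real.log (1 / T) := Real.log_nonneg (by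
    rw [le_div_iff₀ hT]
    linarith)
  have h1 : -(303 / 100 * b) ≤ Real.log (1 - 3 * b) := by
    have h2 := Real.one_sub_inv_le_log_of_pos hv
    have h3 : (1 - 3 * b)⁻¹ ≤ 1 + 303 / 100 * b := by
      rw [inv_le_comm₀ hv (by positivity), ← one_div, div_le_iff₀ (by positivity)]
      nlinarith
    linarith
  have h4 : -(100 * Real.log (1 / T) + 1) ≤ Real.log ((1 - 3 * b) ^ n) := by
    rw [Real.log_pow]
    have h5 : (n : ℝ) * (303 / 100 * b) ≤ (33 / b * Real.log (1 / T) + 1) * (303 / 100 * b) :=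
      mul_le_mul_of_nonneg_right hn (by positivity)
    have e : (33 / b * Real.log (1 / T) + 1) * (303 / 100 * b) =
        9999 / 100 * Real.log (1 / T) + 303 / 100 * b := by
      field_simp
      ring
    rw [e] at h5
    have h6 : (n : ℝ) * -(303 / 100 * b) ≤ n * Real.log (1 - 3 * b) :=
      mul_le_mul_of_nonneg_left h1 (Nat.cast_nonneg n)
    linarith
  have h7 : Real.exp (-(100 * Real.log (1 / T) + 1)) ≤ (1 - 3 * b) ^ n := by
    rw [← Real.le_log_iff_exp_le (by positivity)]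
    exact h4
  have h8 : Real.exp (-(100 * Real.log (1 / T) + 1)) = T ^ 100 * Real.exp (-1) := by
    have e : -(100 * Real.log (1 / T) + 1) = Real.log (T ^ 100) + -1 := by
      rw [one_div, Real.log_inv, Real.log_pow]
      push_cast
      ring
    rw [e, Real.exp_add, Real.exp_log (by positivity)]
  have h9 : 1 / 3 ≤ Real.exp (-1) := by
    rw [Real.exp_neg, ← one_div]
    apply one_div_le_one_div_of_le (Real.exp_pos 1)
    have := Real.exp_one_lt_d9
    linarith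
  rw [h8] at h7
  refine le_trans ?_ h7
  have h10 := mul_le_mul_of_nonneg_left h9 (by positivity : (0 : ℝ) ≤ T ^ 100)
  linarith

/-- numbers with large powers of `x` -/
private lemma sn3_c (x D T b : ℝ) (hx : 10 ^ 20 ≤ x) (hb1 : 1 / (11 * x ^ 3) ≤ b)
    (hT : 1 / x ^ 4912 ≤ T) (L0 : ℕ) (hL0 : L0 = ⌊D / x ^ 520000⌋₊)
    (hD : x ^ 4000000 ≤ D) (E : ℝ) (hE : D ≤ 3 * x ^ 520000 * L0 → E * x ^ 1000000 ≤ 1)
    (l1 w : ℝ) (hl1 : D ≤ 22 / 10 * l1) (hw : T ^ 100 / 3 ≤ w) (n : ℕ)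
    (hn : (n : ℝ) ≤ 33 / b * Real.log (1 / T) + 1) :
    x ^ 3 ≤ L0 ∧ D ≤ 2 * x ^ 520000 * L0 ∧ 8 * E ≤ T * b / 32 ∧ (L0 : ℝ) ≤ l1 * w ∧
      (n : ℝ) ≤ x ^ 5 := by
  have hx1 : (1 : ℝ) ≤ x := le_trans (by norm_num) hx
  have hx0 : (0 : ℝ) < x := by linarith
  have hX0 : 0 < x ^ 520000 := pow_pos hx0 _
  have hD0 : 0 < D := (pow_pos hx0 _).trans_le hD
  have hT0 : 0 < T := (by positivity : (0 : ℝ) < 1 / x ^ 4912).trans_le hT
  have hb0 : 0 < b := (by positivity : (0 : ℝ) < 1 / (11 * x ^ 3)).trans_le hb1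
  -- the quotient
  obtain ⟨y, hy⟩ : ∃ y : ℝ, y = D / x ^ 520000 := ⟨_, rfl⟩
  have hyD : y * x ^ 520000 = D := by rw [hy]; field_simp
  have hy1 : x ^ 4 ≤ y := by
    rw [hy, le_div_iff₀ hX0]
    refine le_trans ?_ hD
    rw [← pow_add]
    exact pow_le_pow_right₀ hx1 (by norm_num)
  have hx3 : x ^ 3 + 1 ≤ x ^ 4 := by
    have h3 : 1 ≤ x ^ 3 := one_le_pow₀ hx1
    have h4 : x ^ 4 = x ^ 3 * x := by ring
    have h5 : (2 : ℝ) ≤ x := le_trans (by norm_num) hx
    rw [h4]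
    nlinarith
  have hx4 : 2 ≤ x ^ 4 := by
    have h3 : 1 ≤ x ^ 3 := one_le_pow₀ hx1
    linarith
  have hfl : y - 1 ≤ L0 := by
    rw [hL0, ← hy]
    have := Nat.lt_floor_add_one y
    linarith
  have hfu : (L0 : ℝ) ≤ y := by
    rw [hL0, ← hy]
    exact Nat.floor_le (by linarith)
  have hA : x ^ 3 ≤ L0 := by linarith
  have hB : D ≤ 2 * x ^ 520000 * L0 := by
    rw [← hyD]
    have h1 : y ≤ 2 * L0 := by linarith
    nlinarith
  have hE' := hE (by nlinarith)
  refine ⟨hA, hB, ?_, ?_, ?_⟩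
  · have h1 : 1 / (352 * x ^ 4915) ≤ T * b / 32 := by
      have h2 : 1 / x ^ 4912 * (1 / (11 * x ^ 3)) ≤ T * b :=
        mul_le_mul hT hb1 (by positivity) hT0.le
      have h3 : 1 / (352 * x ^ 4915) = 1 / x ^ 4912 * (1 / (11 * x ^ 3)) / 32 := by
        have : x ^ 4915 = x ^ 4912 * x ^ 3 := by rw [← pow_add]
        rw [this]
        field_simp
        norm_num
      rw [h3]
      linarith
    refine le_trans ?_ h1
    have hP0 : 0 < x ^ 1000000 := pow_pos hx0 _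
    have h4 : E ≤ 1 / x ^ 1000000 := by
      rw [le_div_iff₀ hP0]
      exact hE'
    have h5 : 8 * (1 / x ^ 1000000) ≤ 1 / (352 * x ^ 4915) := by
      rw [mul_one_div, div_le_div_iff₀ hP0 (by positivity)]
      have h6 : x ^ 4916 ≤ x ^ 1000000 := pow_le_pow_right₀ hx1 (by norm_num)
      have h7 : x ^ 4916 = x ^ 4915 * x := pow_succ x 4915
      have h8 : (2816 : ℝ) ≤ x := le_trans (by norm_num) hx
      have h9 : 0 < x ^ 4915 := pow_pos hx0 _
      rw [h7] at h6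
      nlinarith
    linarith
  · have hT100 : 1 / x ^ 491200 ≤ T ^ 100 := by
      have h1 := pow_le_pow_left₀ (by positivity) hT 100
      rw [div_pow, one_pow, ← pow_mul] at h1
      exact h1
    have h2 : 1 / (3 * x ^ 491200) ≤ w := by
      refine le_trans ?_ hw
      have : 1 / (3 * x ^ 491200) = 1 / x ^ 491200 / 3 := by
        field_simp
      rw [this]
      linarith
    have hl0 : 0 < l1 := by linarith
    have hQ0 : 0 < x ^ 491200 := pow_pos hx0 _
    have h3 : l1 * (1 / (3 * x ^ 491200)) ≤ l1 * w := mul_le_mul_of_nonneg_left h2 hl0.le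
    refine hfu.trans (le_trans ?_ h3)
    rw [mul_one_div, le_div_iff₀ (by positivity)]
    have h4 : x ^ 491200 * x ≤ x ^ 520000 := by
      rw [← pow_succ]
      exact pow_le_pow_right₀ hx1 (by norm_num)
    have h8 : (1000 : ℝ) ≤ x := le_trans (by norm_num) hx
    have hy0 : 0 < y := by linarith
    have h5 : 1000 * (y * x ^ 491200) ≤ D := by
      rw [← hyD]
      calc 1000 * (y * x ^ 491200) ≤ x * (y * x ^ 491200) :=
            mul_le_mul_of_nonneg_right h8 (by positivity)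
        _ = y * (x ^ 491200 * x) := by ring
        _ ≤ y * x ^ 520000 := mul_le_mul_of_nonneg_left h4 hy0.le
    have h6 : 0 < y * x ^ 491200 := by positivity
    have h7 : y * (3 * x ^ 491200) = 3 * (y * x ^ 491200) := by ring
    rw [h7]
    linarith
  · have hlog : Real.log (1 / T) ≤ 4912 * x := by
      have h1 : 1 / T ≤ x ^ 4912 := by
        rw [div_le_iff₀ hT0]
        rw [div_le_iff₀ (pow_pos hx0 _)] at hT
        linarith
      have h2 := Real.log_le_log (by positivity) h1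
      rw [Real.log_pow] at h2
      have h3 : Real.log x ≤ x := (Real.log_le_sub_one_of_pos hx0).trans (by linarith)
      push_cast at h2
      linarith
    have h1 : 33 / b ≤ 363 * x ^ 3 := by
      rw [div_le_iff₀ hb0]
      rw [div_le_iff₀ (by positivity)] at hb1
      nlinarith
    have h2 : 33 / b * Real.log (1 / T) ≤ 363 * x ^ 3 * (4912 * x) := by
      have h3 : 0 < 33 / b := by positivity
      calc 33 / b * Real.log (1 / T) ≤ 33 / b * (4912 * x) :=
            mul_le_mul_of_nonneg_left hlog h3.le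
        _ ≤ 363 * x ^ 3 * (4912 * x) := mul_le_mul_of_nonneg_right h1 (by positivity)
    have h3 : (2000000 : ℝ) ≤ x := le_trans (by norm_num) hx
    have h4 : 363 * x ^ 3 * (4912 * x) = 1783056 * x ^ 4 := by ring
    have h5 : x ^ 5 = x ^ 4 * x := by ring
    have h6 : (1 : ℝ) ≤ x ^ 4 := one_le_pow₀ hx1
    rw [h4] at h2
    rw [h5]
    nlinarith

theorem thm_SN3 : St_SN3 := by
  intro P ell x hN hF hD
  have hx : (10 : ℝ) ^ 20 ≤ P.X := hF.X0
  have hx1 : (1 : ℝ) ≤ P.X := le_trans (by norm_num) hx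
  have hx0 : (0 : ℝ) < P.X := by linarith
  have hb1 : 1 / (11 * (P.X : ℝ) ^ 3) ≤ bet (8 * P.kn) P.kn := hF.b1
  have hb2 : bet (8 * P.kn) P.kn ≤ 1 / (8 * (P.X : ℝ) ^ 3) := hF.b2
  have hb0 : 0 < bet (8 * P.kn) P.kn :=
    (by positivity : (0 : ℝ) < 1 / (11 * (P.X : ℝ) ^ 3)).trans_le hb1
  have hb3 : bet (8 * P.kn) P.kn ≤ 1 / 1000 := by
    refine hb2.trans ?_
    apply one_div_le_one_div_of_le (by norm_num)
    have h1 : (P.X : ℝ) ≤ (P.X : ℝ) ^ 3 := le_self_pow₀ hx1 (by norm_num)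
    have h2 : (1000 : ℝ) ≤ P.X := le_trans (by norm_num) hx
    linarith
  have hT0 : 0 < P.thp / 2 := (by positivity : (0 : ℝ) < 1 / (P.X : ℝ) ^ 4912).trans_le hF.th1
  have hT1 : P.thp / 2 ≤ 1 := by
    have h1 := hF.th3
    have h2 : P.thp ≤ bet (8 * P.kn) P.kn ^ 2 * P.delta / 320 := h1
    have hd : P.delta ≤ 1 := by
      rw [hN.delta]
      rw [div_le_one (by positivity)]
      exact one_le_pow₀ hx1
    have hd0 : 0 < P.delta := by
      rw [hN.delta]
      positivity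
    have h3 : bet (8 * P.kn) P.kn ^ 2 ≤ 1 := pow_le_one₀ hb0.le (by linarith)
    have h4 : bet (8 * P.kn) P.kn ^ 2 * P.delta ≤ 1 * 1 :=
      mul_le_mul h3 hd hd0.le (by norm_num)
    linarith
  have e2 : (2 : ℝ) / P.thp = 1 / (P.thp / 2) := by
    rw [one_div_div]
  have hlog0 : 0 ≤ Real.log (1 / (P.thp / 2)) := Real.log_nonneg (by
    rw [le_div_iff₀ hT0]
    linarith)
  have hn1 : 33 / bet (8 * P.kn) P.kn * Real.log (1 / (P.thp / 2)) ≤ (sn P : ℝ) := by
    rw [← e2]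
    exact Nat.le_ceil _
  have hn2 : (sn P : ℝ) ≤ 33 / bet (8 * P.kn) P.kn * Real.log (1 / (P.thp / 2)) + 1 := by
    have h1 : 0 ≤ 33 / bet (8 * P.kn) P.kn * Real.log (1 / (P.thp / 2)) := by positivity
    rw [← e2] at h1 ⊢
    exact (Nat.ceil_lt_add_one h1).le
  have hA := sn3_a _ _ hb0 hb3 hT0 (sn P) hn1
  have hB := sn3_b _ _ hb0 hb3 hT0 hT1 (sn P) hn2
  obtain ⟨h1, h2, h3, h4, h5⟩ := sn3_c (P.X : ℝ) P.D (P.thp / 2) (bet (8 * P.kn) P.kn) hx hb1 hF.th1
    (sL0 P) rfl hN.XD (Er P.kn P.Lam (sL0 P)) (hF.er (sL0 P)) (sell1 P ell x)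
    ((1 - 3 * bet (8 * P.kn) P.kn) ^ sn P) hD hB (sn P) hn2
  refine ⟨?_, h2, h3, ?_, h4, h5⟩
  · rw [hN.Lam]
    exact h1
  · linarith

end Pool.TCU
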